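import Pool.Agent.Lib.helper5.ProdK

namespace Pool.Agent.Results.MP_e70507_gt.ProdCompact

theorem result (X K : Type) [TopologicalSpace X] [T35Space X] [TopologicalSpace K] [T35Space K]
    [CompactSpace K] :
    ((∀ L : Set {f : X → ℝ // Continuous f}, IsCompact L → H5P.Tight L) →
      ∀ L : Set {f : X × K → ℝ // Continuous f}, IsCompact L → H5P.Tight L) ∧
    ((∀ L : Set {f : X → ℝ // Continuous f}, IsCompact L → FrechetUrysohnSpace L) →
      ∀ L : Set {f : X × K → ℝ // Continuous f}, IsCompact L → FrechetUrysohnSpace L) := by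
  refine ⟨fun h L hL => ?_, fun h L hL => ?_⟩ <;> have := isCompact_iff_compactSpace.1 hL
  · exact (H5P.ht h).tight (Topology.IsEmbedding.subtypeVal.comp .subtypeVal) fun z => z.1.2
  · exact H5P.fu h (Topology.IsEmbedding.subtypeVal.comp .subtypeVal) fun z => z.1.2

end Pool.Agent.Results.MP_e70507_gt.ProdCompact
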